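import Pool.Agent.Helper60.IP.Zero
import Pool.Agent.Helper96.IP.Many

/-!
# Evaluation of directed acyclic graphs by programs which inspect few cells: the main bound
-/

namespace Pool.Agent.Helper1.IP

open Pool.Agent.Helper6.IP Pool.Agent.Helper60.IP Pool.Agent.Helper96.IP

variable {G : Dag} {A : Type} {N : ℕ}

/-- An output is observed exactly in the final states. -/
theorem see_inr {C : Type} {B : BP C A N} {q : Fin N} {a : A} : see B q = Sum.inr a ↔ B.act q = Sum.inr a := by
  unfold see
  rcases B.act q with t | b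
  · simp
  · simp

/-- A cell is observed exactly in the states which query it. -/
theorem see_inl {C : Type} {B : BP C A N} {q : Fin N} {c : C} :
    see B q = Sum.inl c ↔ ∃ next : A → Fin N, B.act q = Sum.inl (c, next) := by
  unfold see
  rcases B.act q with t | b
  · constructor
    · intro h
      have h1 : t.1 = c := by simpa using h
      exact ⟨t.2, by rw [← h1]⟩
    · rintro ⟨next, h⟩
      have h1 : t = (c, next) := by simpa using h
      simp [h1]
  · constructor
    · intro h
      simp at h
    · rintro ⟨next, h⟩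
      simp at h

/-- A final state does not move. -/
theorem step_final {C : Type} {B : BP C A N} {I : C → A} {q : Fin N} {a : A} (h : B.act q = Sum.inr a) :
    B.step I q = q := by
  unfold BP.step
  rw [h]
  rfl

/-- After an output nothing else is observed. -/
theorem obs_after {C : Type} {B : BP C A N} {I : C → A} {q : Fin N} {m : ℕ} {a : A}
    (h : obs B I q m = Sum.inr a) {j : ℕ} (hj : m ≤ j) : obs B I q j = Sum.inr a := by
  have h1 : B.act ((B.step I)^[m] q) = Sum.inr a := see_inr.1 h
  obtain ⟨i, rfl⟩ := Nat.exists_eq_add_of_le hj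
  have h2 : (B.step I)^[m + i] q = (B.step I)^[m] q := by
    rw [Nat.add_comm, Function.iterate_add_apply]
    exact Function.iterate_fixed (step_final h1) i
  unfold obs
  rw [h2]
  exact see_inr.2 h1

/-- The observations from a later time on. -/
theorem obs_shift {C : Type} (B : BP C A N) (I : C → A) (q : Fin N) (t : ℕ) :
    (fun m => obs B I q (m + t)) = obs B I ((B.step I)^[t] q) := by
  funext m
  unfold obs
  rw [Function.iterate_add_apply]

theorem outputs_iff {C : Type} {B : BP C A N} {I : C → A} {a : A} :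
    B.Outputs I a ↔ ∃ L, obs B I B.start L = Sum.inr a := by
  unfold BP.Outputs obs
  exact exists_congr fun m => see_inr.symm

theorem asks_iff {C : Type} {B : BP C A N} {I : C → A} {c : C} :
    B.Asks I c ↔ ∃ m, obs B I B.start m = Sum.inl c := by
  unfold BP.Asks obs
  exact exists_congr fun m => see_inl.symm

variable [AddCommGroup A]

/-- The main bound, from the bound for the root. -/
theorem main_of_root [Fintype A] (d h T p : ℕ) (hd2 : 2 ≤ d) (hd : ∀ v, Nat.card {e // G.head e = v} ≤ d)
    (hP : ¬ G.Pebbles ((d - 1) * h + 1)) (B : BP (G.Cell A) A N) (φ : A → A)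
    (hroot : Nat.card {I : G.Cell A → A // (∃ L, obs B I B.start L = Sum.inr (φ (G.val I G.root))) ∧
      ∃ s, G.own s = G.root ∧ ∀ m, obs B I B.start m ≠ Sum.inl (rc I s)} * Fintype.card A ≤
      p * Nat.card (G.Cell A → A)) :
    (Nat.card {I : G.Cell A → A // B.Outputs I (φ (G.val I G.root)) ∧ Nat.card {c // B.Asks I c} ≤ T} : ℝ) ≤
      ((p + T) / Fintype.card A + N * T.choose h / Fintype.card A ^ h) * Nat.card (G.Cell A → A) := by
  classical
  set X : ℕ := Nat.card (G.Cell A → A) with hX
  set k : ℕ := Fintype.card A with hk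
  have hk0 : 0 < k := Fintype.card_pos_iff.2 ⟨0⟩
  set FG : Finset (G.Cell A → A) := Finset.univ.filter fun I =>
    B.Outputs I (φ (G.val I G.root)) ∧ Nat.card {c // B.Asks I c} ≤ T with hFG
  set FZ : Finset (G.Cell A → A) := Finset.univ.filter fun I =>
    (∃ s, G.own s ≠ G.root ∧ Blk (obs B I B.start) I s) ∧
      {c | ∃ j, obs B I B.start j = Sum.inl c}.ncard ≤ T with hFZ
  set FD : Finset (G.Cell A → A) := Finset.univ.filter fun I =>
    (∃ L, obs B I B.start L = Sum.inr (φ (G.val I G.root))) ∧
      ∃ s, G.own s = G.root ∧ ∀ m, obs B I B.start m ≠ Sum.inl (rc I s) with hFD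
  set FC : Fin N → Finset (G.Cell A → A) := fun q => Finset.univ.filter fun I =>
    (HR (obs B I q) I).card = h ∧ {c | ∃ j, obs B I q j = Sum.inl c}.ncard ≤ T with hFC
  have card_sub : ∀ (P : (G.Cell A → A) → Prop) [DecidablePred P],
      Nat.card {I // P I} = (Finset.univ.filter P).card := by
    intro P _
    rw [Nat.card_eq_fintype_card, Fintype.card_subtype]
  have hZ : FZ.card * k ≤ T * X := by
    have := zero_bound B B.start T
    rw [card_sub] at this
    exact this
  have hD : FD.card * k ≤ p * X := by
    have := hroot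
    rw [card_sub] at this
    exact this
  have hC : ∀ q, (FC q).card * k ^ h ≤ T.choose h * X := by
    intro q
    have := count_marks B q T h
    rw [card_sub] at this
    exact this
  have hcov : FG ⊆ FZ ∪ FD ∪ Finset.univ.biUnion FC := by
    intro I hI
    obtain ⟨hout, hask⟩ := (Finset.mem_filter.1 hI).2
    obtain ⟨L, hL⟩ := outputs_iff.1 hout
    have hset : {c | B.Asks I c} = {c | ∃ j, obs B I B.start j = Sum.inl c} := by
      ext c
      exact asks_iff
    have hcells : {c | ∃ j, obs B I B.start j = Sum.inl c}.ncard ≤ T := by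
      rw [← hset]
      exact hask
    by_cases h1 : ∃ s, G.own s ≠ G.root ∧ Blk (obs B I B.start) I s
    · exact Finset.mem_union_left _ (Finset.mem_union_left _ (Finset.mem_filter.2
        ⟨Finset.mem_univ _, h1, hcells⟩))
    by_cases h2 : ∃ s, G.own s = G.root ∧ ∀ m, obs B I B.start m ≠ Sum.inl (rc I s)
    · exact Finset.mem_union_left _ (Finset.mem_union_right _ (Finset.mem_filter.2
        ⟨Finset.mem_univ _, ⟨L, hL⟩, h2⟩))
    have h0 : ∀ s, ¬ Blk (obs B I B.start) I s := by
      intro s hs
      by_cases hr : G.own s = G.root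
      · obtain ⟨m, hm, hm'⟩ := hs
        push Not at h2
        obtain ⟨m', hm2⟩ := h2 s hr
        have hlt : m < m' := by
          by_contra hc
          exact hm' m' (not_lt.1 hc) hm2
        rcases hm with ⟨e, he, -⟩ | ⟨-, a, ha⟩
        · exact G.top e (he.trans hr)
        · have := obs_after ha hlt.le
          rw [hm2] at this
          exact absurd this (by simp)
      · exact h1 ⟨s, hr, hs⟩
    obtain ⟨τ, -, hτ⟩ := exists_many (obs B I B.start) I d h L hd2 hd h0 ⟨_, hL⟩ hP
    rw [obs_shift] at hτ
    refine Finset.mem_union_right _ (Finset.mem_biUnion.2 ⟨(B.step I)^[τ] B.start, Finset.mem_univ _,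
      Finset.mem_filter.2 ⟨Finset.mem_univ _, hτ, le_trans (Set.ncard_le_ncard ?_ (Set.toFinite _)) hcells⟩⟩)
    rintro c ⟨j, hj⟩
    rw [← obs_shift] at hj
    exact ⟨j + τ, hj⟩
  have hsum : FG.card ≤ FZ.card + FD.card + ∑ q, (FC q).card :=
    (Finset.card_le_card hcov).trans ((Finset.card_union_le _ _).trans
      (Nat.add_le_add (Finset.card_union_le _ _) Finset.card_biUnion_le))
  have hFGc : Nat.card {I : G.Cell A → A // B.Outputs I (φ (G.val I G.root)) ∧
      Nat.card {c // B.Asks I c} ≤ T} = FG.card := card_sub _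
  rw [hFGc]
  have hkR : (0 : ℝ) < k := by exact_mod_cast hk0
  have hZR : (FZ.card : ℝ) ≤ T / k * X := by
    rw [div_mul_eq_mul_div, le_div_iff₀ hkR]
    exact_mod_cast hZ
  have hDR : (FD.card : ℝ) ≤ p / k * X := by
    rw [div_mul_eq_mul_div, le_div_iff₀ hkR]
    exact_mod_cast hD
  have hCR : ∀ q, ((FC q).card : ℝ) ≤ T.choose h / k ^ h * X := by
    intro q
    rw [div_mul_eq_mul_div, le_div_iff₀ (pow_pos hkR h)]
    exact_mod_cast hC q
  have hSR : (∑ q, ((FC q).card : ℝ)) ≤ N * (T.choose h / k ^ h * X) := by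
    calc (∑ q, ((FC q).card : ℝ)) ≤ ∑ _q : Fin N, (T.choose h / k ^ h * X : ℝ) :=
          Finset.sum_le_sum fun q _ => hCR q
      _ = N * (T.choose h / k ^ h * X) := by simp
  have hsumR : (FG.card : ℝ) ≤ FZ.card + FD.card + ∑ q, ((FC q).card : ℝ) := by
    exact_mod_cast hsum
  calc (FG.card : ℝ) ≤ T / k * X + p / k * X + N * (T.choose h / k ^ h * X) := by linarith
    _ = ((p + T) / k + N * T.choose h / k ^ h) * X := by ring

end Pool.Agent.Helper1.IP
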