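import Pool.Agent.Helper1.IP.Main

/-!
# Evaluation of directed acyclic graphs by programs which inspect few cells: the root
-/

namespace Pool.Agent.Helper1.IP

open Pool.Agent.Helper6.IP Pool.Agent.Helper60.IP Pool.Agent.Helper96.IP

variable {G : Dag} {A : Type} [AddCommGroup A] {N : ℕ}

/-- The slot `s` is the first one of the root whose right cell is never observed. -/
structure Miss (o : ℕ → G.Cell A ⊕ A) (I : G.Cell A → A) (num : G.Slot → ℕ) (s : G.Slot) : Prop where
  own : G.own s = G.root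
  unseen : ∀ m, o m ≠ Sum.inl (rc I s)
  least : ∀ s', G.own s' = G.root → (∀ m, o m ≠ Sum.inl (rc I s')) → num s ≤ num s'

theorem miss_exists {o : ℕ → G.Cell A ⊕ A} {I : G.Cell A → A} (num : G.Slot → ℕ)
    (h : ∃ s, G.own s = G.root ∧ ∀ m, o m ≠ Sum.inl (rc I s)) : ∃ s, Miss o I num s := by
  classical
  obtain ⟨s, hs, hmin⟩ := Finset.exists_min_image
    (Finset.univ.filter fun s : G.Slot => G.own s = G.root ∧ ∀ m, o m ≠ Sum.inl (rc I s)) num (by
      obtain ⟨s, hs⟩ := h
      exact ⟨s, Finset.mem_filter.2 ⟨Finset.mem_univ _, hs⟩⟩)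
  have hs' := (Finset.mem_filter.1 hs).2
  exact ⟨s, hs'.1, hs'.2, fun s' h1 h2 => hmin s' (Finset.mem_filter.2 ⟨Finset.mem_univ _, h1, h2⟩)⟩

omit [AddCommGroup A] in
theorem obs_agree {C : Type} {B : BP C A N} {q : Fin N} {I K : C → A} {c₁ : C}
    (hK : ∀ c, c ≠ c₁ → K c = I c) (h : ∀ j, obs B I q j ≠ Sum.inl c₁) : obs B I q = obs B K q := by
  funext j
  exact obs_congr (run_agree hK (t := j) (fun i _ => h i) j le_rfl)

/-- Two instances whose first missed cells can be changed to give the same instance. -/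
theorem miss_inj {B : BP (G.Cell A) A N} {q : Fin N} {num : G.Slot → ℕ} (hnum : Function.Injective num)
    {I I' K : G.Cell A → A} {s s' : G.Slot} (h : Miss (obs B I q) I num s) (h' : Miss (obs B I' q) I' num s')
    (hK : ∀ c, c ≠ rc I s → K c = I c) (hK' : ∀ c, c ≠ rc I' s' → K c = I' c) :
    rc I s = rc I' s' ∧ obs B I q = obs B I' q ∧ (G.val I G.root = G.val I' G.root → I = I') := by
  have ho : obs B I q = obs B I' q := (obs_agree hK h.unseen).trans (obs_agree hK' h'.unseen).symm
  have hrc : ∀ x, G.own x = G.root → rc I x = rc I' x := fun x hx =>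
    (rc_below hK (hx.trans h.own.symm)).symm.trans (rc_below hK' (hx.trans h'.own.symm))
  have hs : s = s' := by
    refine hnum (le_antisymm (h.least s' h'.own fun m => ?_) (h'.least s h.own fun m => ?_))
    · rw [hrc s' h'.own, ho]
      exact h'.unseen m
    · rw [← hrc s h.own, ← ho]
      exact h.unseen m
  subst hs
  have h7 : ∀ c, c ≠ rc I s → I c = I' c := by
    intro c hc
    rw [← hK c hc]
    refine hK' c ?_
    rw [← hrc s h.own]
    exact hc
  refine ⟨hrc s h.own, ho, fun hval => ?_⟩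
  funext c
  by_cases hc1 : c = rc I s
  · classical
    rw [Pool.Agent.Helper6.IP.val_eq, Pool.Agent.Helper6.IP.val_eq] at hval
    have hmem : s ∈ Finset.univ.filter (fun s' => G.own s' = G.root) := by simp [h.own]
    rw [← Finset.add_sum_erase _ _ hmem, ← Finset.add_sum_erase _ _ hmem] at hval
    have hsum : ∑ x ∈ (Finset.univ.filter (fun s' => G.own s' = G.root)).erase s, I (rc I x) =
        ∑ x ∈ (Finset.univ.filter (fun s' => G.own s' = G.root)).erase s, I' (rc I' x) :=
      Finset.sum_congr rfl fun x hx => by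
        have hx1 := (Finset.mem_filter.1 (Finset.mem_of_mem_erase hx)).2
        rw [← hrc x hx1]
        exact h7 _ fun hx2 => Finset.ne_of_mem_erase hx (rc_inj hx2)
    rw [hsum] at hval
    have h8 := add_right_cancel hval
    rw [← hrc s h.own] at h8
    rw [hc1]
    exact h8
  · exact h7 c hc1

/-- IP-D. -/
theorem root_bound [Fintype A] (B : BP (G.Cell A) A N) (q : Fin N) (φ : A → A) (p : ℕ)
    (hφ : ∀ y, Nat.card {x // φ x = y} ≤ p) :
    Nat.card {I : G.Cell A → A // (∃ L, obs B I q L = Sum.inr (φ (G.val I G.root))) ∧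
      ∃ s, G.own s = G.root ∧ ∀ m, obs B I q m ≠ Sum.inl (rc I s)} * Fintype.card A ≤
      p * Nat.card (G.Cell A → A) := by
  classical
  obtain ⟨num, hnum⟩ : ∃ num : G.Slot → ℕ, Function.Injective num :=
    ⟨fun s => (Fintype.equivFin G.Slot s : ℕ), fun s s' h =>
      (Fintype.equivFin G.Slot).injective (Fin.val_injective h)⟩
  set P : Type := {I : G.Cell A → A // (∃ L, obs B I q L = Sum.inr (φ (G.val I G.root))) ∧
      ∃ s, G.own s = G.root ∧ ∀ m, obs B I q m ≠ Sum.inl (rc I s)} with hP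
  have hex : ∀ x : P, ∃ s, Miss (obs B x.1 q) x.1 num s := fun x => miss_exists num x.2.2
  choose sl hsl using hex
  have hcard : Nat.card P * Fintype.card A = (Finset.univ : Finset (P × A)).card := by
    rw [Finset.card_univ, Fintype.card_prod, Nat.card_eq_fintype_card]
  have hcard' : Nat.card (G.Cell A → A) = (Finset.univ : Finset (G.Cell A → A)).card := by
    rw [Finset.card_univ, Nat.card_eq_fintype_card]
  rw [hcard, hcard']
  refine Finset.card_le_mul_card_image_of_maps_to
    (f := fun y : P × A => Function.update y.1.1 (rc y.1.1 (sl y.1)) y.2) (fun y _ => Finset.mem_univ _) p ?_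
  intro K _
  by_cases hne : (Finset.univ.filter fun y : P × A =>
      Function.update y.1.1 (rc y.1.1 (sl y.1)) y.2 = K).Nonempty
  swap
  · rw [Finset.not_nonempty_iff_eq_empty.1 hne]
    simp
  obtain ⟨y₀, hy₀⟩ := hne
  have hupd : ∀ y : P × A, Function.update y.1.1 (rc y.1.1 (sl y.1)) y.2 = K →
      (∀ c, c ≠ rc y.1.1 (sl y.1) → K c = y.1.1 c) ∧ K (rc y.1.1 (sl y.1)) = y.2 := by
    intro y hy
    subst hy
    exact ⟨fun c hc => Function.update_of_ne hc _ _, Function.update_self _ _ _⟩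
  have h0 := hupd y₀ (Finset.mem_filter.1 hy₀).2
  refine le_trans ?_ (hφ (φ (G.val y₀.1.1 G.root)))
  rw [Nat.card_eq_fintype_card, Fintype.card_subtype]
  refine Finset.card_le_card_of_injOn (fun y => G.val y.1.1 G.root) ?_ ?_
  · intro y hy
    have h1 := hupd y (Finset.mem_filter.1 (Finset.mem_coe.1 hy)).2
    obtain ⟨-, ho, -⟩ := miss_inj hnum (hsl y.1) (hsl y₀.1) h1.1 h0.1
    obtain ⟨L, hL⟩ := y.1.2.1
    obtain ⟨L₀, hL₀⟩ := y₀.1.2.1
    have h2 := obs_after hL (le_max_left L L₀)
    have h3 := obs_after hL₀ (le_max_right L L₀)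
    rw [ho, h3] at h2
    refine Finset.mem_coe.2 (Finset.mem_filter.2 ⟨Finset.mem_univ _, ?_⟩)
    exact (Sum.inr_injective h2).symm
  · intro y hy y' hy' hyy
    have h1 := hupd y (Finset.mem_filter.1 (Finset.mem_coe.1 hy)).2
    have h2 := hupd y' (Finset.mem_filter.1 (Finset.mem_coe.1 hy')).2
    obtain ⟨hr, -, hv⟩ := miss_inj hnum (hsl y.1) (hsl y'.1) h1.1 h2.1
    refine Prod.ext (Subtype.ext (hv hyy)) ?_
    rw [← h1.2, ← h2.2, hr]

/-- IP-E. -/
theorem main_bound [Fintype A] (d h T p : ℕ) (hd2 : 2 ≤ d) (hd : ∀ v, Nat.card {e // G.head e = v} ≤ d)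
    (hP : ¬ G.Pebbles ((d - 1) * h + 1)) (B : BP (G.Cell A) A N) (φ : A → A)
    (hφ : ∀ y, Nat.card {x // φ x = y} ≤ p) :
    (Nat.card {I : G.Cell A → A // B.Outputs I (φ (G.val I G.root)) ∧ Nat.card {c // B.Asks I c} ≤ T} : ℝ) ≤
      ((p + T) / Fintype.card A + N * T.choose h / Fintype.card A ^ h) * Nat.card (G.Cell A → A) :=
  main_of_root d h T p hd2 hd hP B φ (root_bound B B.start φ p hφ)

end Pool.Agent.Helper1.IP
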